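import Pool.Agent.T9h37.MC.Func

/-!
# Murre's conjecture (C) is equivalent to the functoriality of the filtrations

Let `𝒱` be a class of smooth projective varieties over a field `k` which is closed under products
(for example all of them), with Chow groups `C` (rational coefficients) and a Weil cohomology theory
`H`. The following are equivalent:

1. (Murre's conjecture (C)) for all `X` in `𝒱` and all `i`, `n` the group `F^n CH^i(X)` is the same
   for all Chow-Künneth decompositions of `X`;
2. correspondences `Γ ∈ CH^(dim X + r)(X × Y)` map `F^n CH^i(X)` to `F^n CH^(i+r)(Y)`, for all `X`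
   and `Y` with Chow-Künneth decompositions, whatever these are;
3. pull-backs map `F^n CH^i(Y)` to `F^n CH^i(X)`, for all morphisms `X ⟶ Y` of varieties with
   Chow-Künneth decompositions;
4. push-forwards map `F^n CH^i(X)` to `F^n CH^(i + dim Y - dim X)(Y)`, for all morphisms `X ⟶ Y` of
   varieties with Chow-Künneth decompositions;
5. `F^m CH^i(X) · F^n CH^j(X) ⊆ F^(m+n) CH^(i+j)(X)` for all `X` with Chow-Künneth decompositions,
   where the three steps are taken with respect to arbitrary Chow-Künneth decompositions of `X`.
-/

open Pool.Agent.H914 Pool.Agent.H914.VarClass Pool.Agent.H914.VarClass.Obj Pool.Agent.W492.BB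
  Pool.Agent.W550.Corr Pool.Agent.TH133 Pool.Agent.T9h37.MC

universe u v w

namespace Pool.Agent.Results.MP_10f4af_ag.Functoriality

theorem result {k : Type u} [Field k] {𝒱 : VarClass k} {C : TheoryData.{u, v, 0} 𝒱 ℚ}
    [IsChowProj C] {K : Type w} [Field K] {H : WeilTheoryData.{u, v, w} C K} [IsWeilProj H] :
    List.TFAE [∀ X : 𝒱.Obj, MurreC H X, StableCorr H, StablePull H, StablePush H, StableMul H] :=
  tfae_func

end Pool.Agent.Results.MP_10f4af_ag.Functoriality
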