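import Pool.Agent.T9h37.HD.All
import Pool.Agent.T9h37.HD.Crit
import Pool.Agent.T9h37.HD.Out3

/-!
# Murre's conjecture (C) and varieties whose cohomology is dominated by a Kimura-finite variety

Let `X` and `Y` be smooth projective varieties over a field `k`, in a class of varieties with Chow
groups `C` (rational coefficients) and a Weil cohomology theory `H`, and let `a` and `b` be
correspondences from `X` to `Y` and from `Y` to `X` of degrees `r` and `-r`. Suppose that the motive
of `Y`, or the motive of `X`, is finite-dimensional in the sense of Kimura and O'Sullivan.

* **One Kunneth component.** Suppose that `b ∘ a` is the identity of `H^m(X)`, and that `X` satisfies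
  Murre's conjecture (C). Then for every Chow-Kunneth decomposition `π` of `X` and all `j` the
  composition `π_m ∘ b ∘ a` is bijective on `π_m CH^j(X)`. So `π_m CH^j(X)` is a direct summand of
  `CH^(j+r)(Y)`; in particular, `π_m` acts as zero on `CH^j(X)` if `CH^(j+r)(Y) = 0`.

Suppose that `b ∘ a` is the identity of the whole cohomology of `X`. Then:

* if `Y` has a Chow-Kunneth decomposition, then `X` has one;
* if `X` satisfies (C) and has a Chow-Kunneth decomposition, `b ∘ a` is bijective on `CH^j(X)` for all
  `j`, so `CH^j(X)` is a direct summand of `CH^(j+r)(Y)`;
* **criterion**: for every single Chow-Kunneth decomposition `π` of `X`, (C) holds for `X` if and only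
  if `b ∘ a` is injective on `CH^j(X)` for all `j`, and self-correspondences of degree zero do not
  raise the weights with respect to this `π` (`NeverRaises`: `π_m CH^j(X) = 0` for `m > 2 j`, and
  `π_t ∘ Γ ∘ π_s` acts as zero for `s < t`);
* if `Y` has a Chow-Kunneth decomposition and satisfies (C), then `X` satisfies (C) if and only if
  `b ∘ a` is injective on `CH^j(X)` for all `j`. This holds always if the motive of `X` is
  finite-dimensional;
* if the groups `F^0 CH^i(X × X)` are independent of the Chow-Kunneth decomposition of `X × X`, and
  `X` has a Chow-Kunneth decomposition, then the Chow motive `h(X)` is a direct summand of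
  `h(Y)(r)` (see `Pool.Agent.T9h37.HD.main`).

Next, let `a` and `b` be inverse to each other on the cohomology of `X` and `Y`, so that `X` and
`Y` have isomorphic homological motives (up to a Tate twist), and let the motive of `Y` be
finite-dimensional, and let `Y` have a Chow-Kunneth decomposition. Then `a` maps `CH^j(X)` onto
`CH^(j+r)(Y)` for all `j`, and **`X` satisfies (C) if and only if `Y` satisfies (C) and `CH^j(X)` is
mapped isomorphically onto `CH^(j+r)(Y)` for all `j`**. So (C) for `X` is a conjecture of Bloch's
type: the Chow groups of `X` are determined by the homological motive.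

**Domination outside one degree.** Let `d` be a natural number, and suppose that for each `m ≠ d` there
are a Kimura-finite variety `Y` with a Chow-Kunneth decomposition and correspondences `a` and `b` as
above with `b ∘ a` equal to the identity of `H^m(X)`. Then `X` has a Chow-Kunneth decomposition, and for
every single one, `π`, the variety `X` satisfies (C) if and only if

* every homologically trivial idempotent self-correspondence of `X` acts as zero on the Chow groups
  of `X`, and
* self-correspondences of degree zero do not raise the weights with respect to this `π`.

This is the case for **all surfaces** `X` and `d = 2` (`Y` is a point, or the Albanese variety of `X`), for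
threefolds whose second cohomology is spanned by divisors and `d = 3`, and, by the theorem of
Lefschetz, for complete intersections in an abelian variety or in a product of curves, where `d` is
the dimension of `X`. For a surface and the decomposition of Murre the second condition is known
(Kahn, Murre and Pedrini).

## Examples

Several varieties `Y_1, …, Y_n` with Tate twists can be used instead of `Y`, since the sum of the
motives `h(Y_i)(r_i)` is a direct summand of the motive of the product of all `Y_i` with projective
spaces, up to a twist.

* Let `H^m(X)` be a direct summand of `H^m(Y)` (`r = 0`) for a Kimura-finite variety `Y` of dimension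
  `e`, for example for a linear section `Y` of dimension `e = m` of `X`, if a left inverse of the
  restriction map is algebraic. Then `π_m` acts as zero on `CH^j(X)` for `j > e` if `X` satisfies (C). For `e = m`
  this is one half of Murre's conjecture (B).
* Let `X` be a surface with `p_g = 0` (and arbitrary `q`), and let `Y` be the product of projective
  spaces with a curve on `X`. The cohomology of `X` is dominated by `Y` (Lefschetz), so `CH^2(X)` is a
  direct summand of a sum of Chow groups of points and of the curve if `X` satisfies (C), and the
  kernel of the Albanese map is zero: Bloch's conjecture for `X`.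
* Let `X` be a K3 surface such that an isomorphism of the transcendental lattice (with rational
  coefficients) with the one of an abelian surface `A` is algebraic. If `X` satisfies (C), then the
  Chow group of zero cycles of degree zero of `X` is isomorphic to the one of the Kummer surface
  of `A`.

The file `MP_10f4af_ag.MiddleCohomology` (by another member of the team) treats varieties with
cohomology spanned by classes of cycles outside one degree.

## Proof

Let `u = b ∘ a`. If `n` is a homologically trivial self-correspondence of `X`, then `n ∘ u` is nilpotent,
since `(n b a)^(k+1) = n b (a n b)^k a`. So `u ^ 2 - u` (or the corresponding element for a Kunneth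
component) is nilpotent, and there is an idempotent `E = g u = u g` which is the identity of the
cohomology. The complement of `E` is a phantom summand, which acts as zero on the Chow groups of `X` by
(C) (it can be moved from one step of the filtration to another one). For the converse direction
let `w` be the inverse of `u` on the Chow groups, and `ω_l = a π_l w b`, for a Chow-Kunneth
decomposition `π` of `X`. These operators are idempotents on the Chow groups of `Y`, and they act on
the graded pieces of the filtration of `CH^*(Y)` by nilpotent operators, except for the piece of
weight `l + 2 r`. So the filtration of `CH^*(X)` which is given by `π` is the preimage under `a` of the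
one of `CH^*(Y)`, and therefore it does not depend on `π`. Chow-Kunneth decompositions are lifted
from the homological motive to the summand cut out by `E`.

If `X` is dominated outside the degree `d`, and `p` is a homologically trivial idempotent, orthogonal
idempotents which lift the Kunneth projectors of the degrees `m ≠ d` can be constructed inside of the
summand which is complementary to `p`. So there is a Chow-Kunneth decomposition for which `p` is a
summand of the component of degree `d`, and (C) implies that `p` acts as zero on the Chow groups.
Conversely, let the phantoms act as zero. For two Chow-Kunneth decompositions `π` and `π'` and `l ≠ m`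
one of the components `π_m`, `π'_l` has the same action on the Chow groups as an idempotent which
factors through a Kimura-finite variety. So the actions of the off-diagonal compositions
`π_m ∘ π'_l ∘ π_m` are nilpotent, and the argument above shows that the filtrations agree.
-/

open Pool.Agent.H914 Pool.Agent.H914.VarClass Pool.Agent.H914.VarClass.Obj Pool.Agent.W492.BB
  Pool.Agent.W550.Corr Pool.Agent.TH133 Pool.Agent.Y110 Pool.Agent.TH829.Kim Pool.Agent.T9h37.MC
  Pool.Agent.T9h37.HD

universe u v w

namespace Pool.Agent.Results.MP_10f4af_ag.HomologicalDomination

theorem result {k : Type u} [Field k] {𝒱 : VarClass k} {C : TheoryData.{u, v, 0} 𝒱 ℚ}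
    [IsChowProj C] {K : Type w} [Field K] {H : WeilTheoryData.{u, v, w} C K} [IsWeilProj H]
    (X Y : 𝒱.Obj) (hK : IsKimuraFinite C (ratFam C) X ∨ IsKimuraFinite C (ratFam C) Y) (r : ℤ)
    (a : C.A (X.prod Y)) (ha : C.Deg (X.dim + r) a) (b : C.A (Y.prod X))
    (hb : C.Deg (Y.dim - r) b) :
    (∀ m : ℕ, IdInDegree H a b m → MurreC H X → ∀ π, IsCK H X π → ∀ j : ℕ,
      BijectiveOnComponent C (π m) (C.comp a b) j ∧
      (NoCycles C Y (j + r) → Kills C (π m) j)) ∧
    (IdOnCohomology H a b →
      (HasDecomposition H Y → HasDecomposition H X) ∧
      (HasDecomposition H X → MurreC H X →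
        InjectiveOnChow C (C.comp a b) ∧ SurjectiveOnChow C (C.comp a b) 0) ∧
      (∀ π, IsCK H X π → (MurreC H X ↔ InjectiveOnChow C (C.comp a b) ∧ NeverRaises C π)) ∧
      (HasDecomposition H Y → MurreC H Y → (MurreC H X ↔ InjectiveOnChow C (C.comp a b)) ∧
        (IsKimuraFinite C (ratFam C) X → MurreC H X)) ∧
      (IdOnCohomology H b a → HasDecomposition H Y → IsKimuraFinite C (ratFam C) Y →
        SurjectiveOnChow C a r ∧ (MurreC H X ↔ MurreC H Y ∧ InjectiveOnChow C a))) ∧
    (∀ d : ℕ, DominatedOutside H X d → HasDecomposition H X ∧
      ∀ π, IsCK H X π → (MurreC H X ↔ PhantomsAct0 H X ∧ NeverRaises C π)) := by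
  have hcomp : ∀ x : C.A X, C.act (C.comp a b) x = C.act b (C.act a x) := fun x =>
    C.act_comp a b x
  have hinj : InjectiveOnChow C (C.comp a b) ↔ ∀ (j : ℕ) (x : C.A X), C.Deg j x →
      C.act b (C.act a x) = 0 → x = 0 := by
    unfold InjectiveOnChow
    simp only [hcomp]
  obtain ⟨h1, h2⟩ := main (H := H) X Y hK r a ha b hb
  refine ⟨fun m hm hC π hπ j => ?_, fun hm => ?_,
    fun d hd => ⟨(outside X d hd).1, fun π hπ => (outside X d hd).2 π hπ⟩⟩
  · obtain ⟨h3, h4⟩ := h1 m hm hC π hπ j
    refine ⟨fun x hx => ?_, h4⟩
    rw [hcomp]
    simp only [hcomp]
    exact h3 x hx
  · obtain ⟨h3, h4, h5, h6, h7, h8⟩ := h2 hm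
    refine ⟨h3, fun hX hC => ⟨hinj.2 fun j x hx => (h4 hX hC j x hx).1, fun j y hy => ?_⟩,
      fun π hπ => ⟨fun hC => ⟨hinj.2 fun j x hx => (h4 ⟨π, hπ⟩ hC j x hx).1,
        fun j m hjm x hx => act_gt hC (P := π) hπ hjm hx, fun s t hst Γ hΓ j x hx => ?_⟩,
        fun h => ?_⟩, fun hY hC => ⟨(h5 hY hC).trans hinj.symm, h6 hY hC⟩, h8⟩
    rotate_left
    · exact (act3 H (π t) Γ (π s) x).symm.trans (raise_zero hC (P := π) hπ hst (γ := Γ) hΓ hx)
    · have hb' : b ∈ C.gr (Y.prod X) (Y.dim + -r) := by
        rw [← sub_eq_add_neg]
        exact hb
      refine murreC_one (H := H) ha hb' (star1 ha hb' (hK.imp nil_of_kimura nil_of_kimura)) hm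
        (fun j x hx h0 => ?_) (Q := π) hπ (fun s t hst γ hγ j x hx => ?_)
        fun j m x hx hjm => h.2.1 j m hjm x hx
      · by_cases hj : j < 0
        · rw [C.gr_neg X _ hj, Submodule.mem_bot] at hx
          exact hx
        · obtain ⟨i, rfl⟩ := Int.eq_ofNat_of_zero_le (not_lt.1 hj)
          rw [act_U] at h0
          exact hinj.1 h.1 i x hx h0
      · exact (act3 H (π t) γ (π s) x).trans (h.2.2 s t hst γ hγ j x hx)
    rw [add_zero] at hy
    simp only [hcomp]
    by_cases hj : j < 0
    · have h9 : y ∈ C.gr X j := hy
      rw [C.gr_neg X _ hj, Submodule.mem_bot] at h9
      refine ⟨0, Submodule.zero_mem _, ?_⟩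
      rw [h9, TheoryData.act_map_zero, TheoryData.act_map_zero]
    · obtain ⟨i, rfl⟩ := Int.eq_ofNat_of_zero_le (not_lt.1 hj)
      exact (h4 hX hC i y hy).2

end Pool.Agent.Results.MP_10f4af_ag.HomologicalDomination
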