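import Pool.Agent.T9h61.MC.Fin

/-!
# Murre's conjecture (C) for a variety with algebraic cohomology outside the middle degree

Let `X` be a smooth projective variety of dimension `d`, in a class of varieties with Chow groups `C`
(rational coefficients) and a Weil cohomology theory `H`, such that `H^(2i)(X)` is spanned by classes
of cycles for `2 i ≠ d` and `H^m(X) = 0` for odd `m ≠ d` (for instance a complete intersection, or a
surface with `H^1 = 0`). Then `X` has a Chow-Künneth decomposition, and the groups `F^n CH^i(X)` are
independent of the decomposition if and only if homologically trivial idempotent self-correspondences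
act as zero on the Chow groups and there are no homologically trivial cycles of codimension `i`,
`0 < 2 i < d`. In this case `F^n CH^i(X)` is `CH^i(X)` for `n = 0`, the group of the homologically
trivial cycles for `1 ≤ n ≤ 2 i - d`, and zero for the other `n`. If all of `H^*(X)` is spanned by
classes of cycles, independence means that the cycle class map is injective.
-/

open Pool.Agent.H914 Pool.Agent.H914.VarClass Pool.Agent.H914.VarClass.Obj Pool.Agent.W492.BB
  Pool.Agent.W550.Corr Pool.Agent.TH133 Pool.Agent.T9h61.MC

universe u v w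

namespace Pool.Agent.Results.MP_10f4af_ag.MiddleCohomology

theorem result {k : Type u} [Field k] {𝒱 : VarClass k} {C : TheoryData.{u, v, 0} 𝒱 ℚ}
    [IsChowProj C] {K : Type w} [Field K] {H : WeilTheoryData.{u, v, w} C K} [IsWeilProj H]
    (X : 𝒱.Obj) (hM : AlgIn H X (fun m => m ≠ X.dim)) :
    (∃ π : ℕ → C.A (X.prod X), IsCK H X π) ∧
    (MurreC H X ↔ PhantomsAct0 H X ∧ InjIn H X (fun i => 0 < i ∧ 2 * i < X.dim)) ∧
    (MurreC H X → ∀ π : ℕ → C.A (X.prod X), IsCK H X π → ∀ (i n : ℕ) (x : C.A X),
      x ∈ ckFil C π i n ↔ C.Deg i x ∧ (n = 0 ∨ (n + X.dim ≤ 2 * i ∧ H.cl x = 0) ∨ x = 0)) ∧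
    (AlgIn H X (fun _ => True) → (MurreC H X ↔ InjIn H X (fun _ => True))) :=
  fin X hM

end Pool.Agent.Results.MP_10f4af_ag.MiddleCohomology
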