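import Pool.Agent.T9h74.RV.Main

/-!
# Murre's conjecture (C): the general case, finiteness, and one Chow group of rational varieties

Let `𝒱` be a class of smooth projective varieties over a field `k` which is closed under products
(for example all of them), with Chow groups `C` (rational coefficients) and a Weil cohomology theory
`H`. Murre's conjecture (C) for `X` says that the groups `F^n CH^i(X)` are the same for all
Chow-Künneth decompositions of `X`.

1. Let `X` have a Chow-Künneth decomposition and let `Y` be a variety whose Chow motive is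
   `⨁_j h(X_j)(-r_j)`, where all `X_j` have Chow-Künneth decompositions and `X_j = X × X` for
   one `j` (for example `Y = X × X`). If the one group `F^0 CH^i(Y)`, `i = dim X + r_j`, is
   independent of the Chow-Künneth decomposition of `Y`, then (C) holds for `X`, for all
   `F^n CH^l(X)`, and homologically trivial idempotent correspondences of degree zero of `X` are `0`.

By a theorem of Manin, the motive of the blow-up `Y` of a smooth projective variety `Z` along a smooth
subvariety `W` of codimension `c` is `h(Z) ⊕ h(W)(-1) ⊕ ⋯ ⊕ h(W)(-(c-1))`. Every `W = X × X` can be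
embedded in a projective space `Z` of large dimension, and then `Y` is rational.

2. Let `𝓡` be a set of varieties such that for all `X` with a Chow-Künneth decomposition there are
   `Y` in `𝓡`, `s ≥ 1` and `Z` with a Chow-Künneth decomposition such that
   `dim Y = 2 (dim X + s)` and `h(Y) = h(Z) ⊕ h(X × X)(-1) ⊕ ⋯ ⊕ h(X × X)(-(2s-1))`: for example, the
   set of all blow-ups of projective spaces of even dimension along smooth subvarieties. Then the
   following are equivalent, if the cup product of `H` is graded commutative.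
   For all varieties `X` in `𝒱`:
   * (C) holds;
   * `F^0 CH^i(X) = CH^i(X)` for all decompositions and all `i` (one half of Murre's (B));
   * if `X` has a decomposition, then it has no phantoms, and `F^0 CH^i(X) = CH^i(X)` for one
     decomposition and all `i`;
   * the same, with finite-dimensionality in the sense of Kimura and O'Sullivan instead of the
     absence of phantoms;
   * the same, with the uniqueness of the decomposition up to conjugation.
   For the varieties `Y` in `𝓡` only:
   * (C) holds;
   * if `dim Y = 2m`, the one group `F^0 CH^m(Y)` is independent of the decomposition;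
   * if `Y` has a decomposition, then it has no phantoms, and `F^0 CH^m(Y) = CH^m(Y)` for one
     decomposition if `dim Y = 2m`;
   * the same, with finite-dimensionality in the sense of Kimura and O'Sullivan;
   * the same, with the uniqueness of the decomposition up to conjugation.

The equivalence of the first five conditions is due to helper37 (`Pool.Agent.T9h37.MC`).
-/

open Pool.Agent.H914 Pool.Agent.H914.VarClass Pool.Agent.H914.VarClass.Obj Pool.Agent.W492.BB
  Pool.Agent.W550.Corr Pool.Agent.TH133 Pool.Agent.Y110 Pool.Agent.TH829.Kim Pool.Agent.T9h37.MC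
  Pool.Agent.T9h74.RV

universe u v w

namespace Pool.Agent.Results.MP_10f4af_ag.RationalVarieties

theorem result {k : Type u} [Field k] {𝒱 : VarClass k} {C : TheoryData.{u, v, 0} 𝒱 ℚ}
    [IsChowProj C] {K : Type w} [Field K] {H : WeilTheoryData.{u, v, w} C K} [IsWeilProj H] :
    (∀ (X Y : 𝒱.Obj) (ι : Type) [Fintype ι] (Xs : ι → 𝒱.Obj) (r : ι → ℕ)
      (Γ : ∀ j, C.A ((Xs j).prod Y)) (Γ' : ∀ j, C.A (Y.prod (Xs j))),
      IsMotivicSum C Y Xs r Γ Γ' → (∀ j, HasCK H (Xs j)) → HasCK H X → ∀ j : ι,
      Xs j = X.prod X → IndepF0 H Y (X.dim + r j) → MurreC H X ∧ NoPhantoms H X) ∧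
    ∀ 𝓡 : Set 𝒱.Obj, (∀ X : 𝒱.Obj, HasCK H X → ∃ Y ∈ 𝓡, ∃ (Z : 𝒱.Obj) (s : ℕ), 1 ≤ s ∧
      Y.dim = 2 * (X.dim + s) ∧ HasCK H Z ∧ BlowUpFormula C (X.prod X) Z Y (2 * s)) →
      GradedCommutative H →
      List.TFAE [∀ X : 𝒱.Obj, MurreC H X,
        ∀ X : 𝒱.Obj, MurreB0 H X,
        ∀ X : 𝒱.Obj, HasCK H X → NoPhantoms H X ∧ HasB0 H X,
        ∀ X : 𝒱.Obj, HasCK H X → IsKimuraFinite C (ratFam C) X ∧ HasB0 H X,
        ∀ X : 𝒱.Obj, HasCK H X → UniqueUpToConjugation H X ∧ HasB0 H X,
        ∀ Y ∈ 𝓡, MurreC H Y,
        ∀ Y ∈ 𝓡, ∀ m : ℕ, Y.dim = 2 * m → IndepF0 H Y m,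
        ∀ Y ∈ 𝓡, HasCK H Y → NoPhantoms H Y ∧ HasB0Mid H Y,
        ∀ Y ∈ 𝓡, HasCK H Y → IsKimuraFinite C (ratFam C) Y ∧ HasB0Mid H Y,
        ∀ Y ∈ 𝓡, HasCK H Y → UniqueUpToConjugation H Y ∧ HasB0Mid H Y] :=
  main

end Pool.Agent.Results.MP_10f4af_ag.RationalVarieties
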